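import Pool.Agent.Lib.MP_348529_lc.Main

/-!
Every submodular hypergraph on `n` vertices has a `(1 + ε)`-sparsifier that is a reweighted
sub-hypergraph with `O(ε⁻² n² (1 + log n)⁴)` hyperedges.
-/

namespace Pool.Agent.Variants.MP_348529_lc.NearQuadratic

theorem result : ∃ C : ℝ, ∀ (V ι : Type) [Fintype V] [DecidableEq V] [Fintype ι]
    (e : ι → Finset V) (g : ι → Finset V → ℝ),
    (∀ i, g i ∅ = 0) → (∀ i, ∀ S ⊆ e i, 0 ≤ g i S) →
    (∀ i, ∀ S ⊆ e i, ∀ T ⊆ e i, g i (S ∪ T) + g i (S ∩ T) ≤ g i S + g i T) →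
    ∀ ε : ℝ, 0 < ε → ε < 1 →
      ∃ (E' : Finset ι) (s : ι → ℝ), (∀ i ∈ E', 0 < s i) ∧
        (E'.card : ℝ) ≤
          C * (Fintype.card V : ℝ) ^ 2 * (1 + Real.log (Fintype.card V)) ^ 4 / ε ^ 2 ∧
        ∀ S : Finset V, (1 - ε) * ∑ i, g i (S ∩ e i) ≤ ∑ i ∈ E', s i * g i (S ∩ e i) ∧
          ∑ i ∈ E', s i * g i (S ∩ e i) ≤ (1 + ε) * ∑ i, g i (S ∩ e i) := by
  refine ⟨10 ^ 8, fun V ι _ _ _ e g h0 h1 h2 ε hε hε1 => ?_⟩
  obtain ⟨E', s, hs, hc, h⟩ := Pool.Agent.Lib.MP_348529_lc.main (fun i S => g i (S ∩ e i))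
    (fun i => by simp [h0 i]) (fun i S => h1 i _ Finset.inter_subset_right)
    (fun i S T => by
      have := h2 i (S ∩ e i) Finset.inter_subset_right (T ∩ e i) Finset.inter_subset_right
      rwa [← Finset.union_inter_distrib_right, ← Finset.inter_inter_distrib_right] at this)
    hε hε1
  refine ⟨E', s, fun i _ => hs i, hc, fun S => ?_⟩
  have := abs_le.1 (h S)
  constructor <;> linarith [this.1, this.2]

end Pool.Agent.Variants.MP_348529_lc.NearQuadratic
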